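import Pool.Agent.helper16.EXG.Spec

/-!
# Row en5:GYB of project EXG (MP_561ff4_al): products of two root elements as commutators with `y`
-/

set_option autoImplicit false

open Finset

namespace Pool.Agent.EXC

/-- the computation in a group -/
theorem GYB_grp {G : Type*} [Group G] (y c a d f : G) (h1 : y * (c⁻¹ * a) * y⁻¹ * (c⁻¹ * a)⁻¹ = c) (h2 : y * d * y⁻¹ * d⁻¹ = f)
    (h3 : a * f = f * a) : y * (c⁻¹ * a * d) * y⁻¹ * (c⁻¹ * a * d)⁻¹ = f * c := by
  have e1 : y * (c⁻¹ * a) * y⁻¹ = a := by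
    have := mul_inv_eq_iff_eq_mul.1 h1
    rw [this]
    group
  have e2 : y * d * y⁻¹ = f * d := mul_inv_eq_iff_eq_mul.1 h2
  have e3 : y * (c⁻¹ * a * d) * y⁻¹ = (y * (c⁻¹ * a) * y⁻¹) * (y * d * y⁻¹) := by group
  rw [e3, e1, e2]
  have e4 : a * (f * d) * (c⁻¹ * a * d)⁻¹ = a * f * a⁻¹ * c := by group
  rw [e4, h3]
  group

theorem GYB (hGXC : GXC_stmt) (hGVA : GVA_stmt) : GYB_stmt := by
  intro n C _ F _ hnb a c f ha hc hf hac haf hfc κ s s' hκ
  have hfa : ip C f a = 1 := by rw [ip_comm, haf]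
  have hd : ip C (f - a) (f - a) = 2 := by
    have : f - a = f + -a := sub_eq_add_neg f a
    rw [this, ip_add_left, ip_add_right, ip_add_right, ip_neg_left, ip_neg_left, ip_neg_right, ip_neg_right, hf, hfa, haf, ha]
    norm_num
  have had : ip C a (f - a) = -1 := by
    have : f - a = f + -a := sub_eq_add_neg f a
    rw [this, ip_add_right, ip_neg_right, haf, ha]
    norm_num
  have hadd : a + (f - a) = f := by abel
  have hneg : ∀ t : F, XG C c (-t) = (XG C c t)⁻¹ := by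
    intro t
    obtain ⟨k1, k2, -, -⟩ := hGXC n C F hnb c c hc hc (-t) t
    rw [neg_add_cancel, k2] at k1
    exact eq_inv_of_mul_eq_one_left k1.symm
  obtain ⟨p, q, -, hp, h1⟩ := hGVA n C F hnb a c ha hc hac κ hκ s' 0
  obtain ⟨p', q', hq', -, h2⟩ := hGVA n C F hnb a (f - a) ha hd had κ hκ 0 s
  rw [hp rfl, hneg, (hGXC n C F hnb (a + c) c (by
    rw [ip_add_left, ip_add_right, ip_add_right, ha, hc, hac, ip_comm, hac]
    norm_num) hc 0 0).2.1, mul_one] at h1
  rw [hq' rfl, hadd, (hGXC n C F hnb f c hf hc 0 0).2.1, (hGXC n C F hnb (f - a) c hd hc 0 0).2.1, mul_one, one_mul] at h2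
  refine ⟨-s', q, p', ?_⟩
  rw [hneg]
  refine GYB_grp _ _ _ _ _ h1 h2 ?_
  refine (hGXC n C F hnb (a + c) f ?_ hf q s).2.2.1 ?_
  · rw [ip_add_left, ip_add_right, ip_add_right, ha, hc, hac, ip_comm, hac]
    norm_num
  · rw [ip_add_left, haf, ip_comm, hfc]
    norm_num

end Pool.Agent.EXC
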